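import Pool.Agent.helper53.DC.SpecV

set_option autoImplicit false

namespace Pool.Agent.helper97.DC

open Pool.Agent.helper53.DC

theorem A24 (h3 : A3_stmt) (h7 : A7_stmt) (h9 : A9_stmt) (h11 : A11_stmt) : A24_stmt := by
  classical
  intro B W _ _ M cs
  obtain ⟨N, hN⟩ : ∃ N : ℕ, ∀ i j, M i j ≤ N := by
    cases nonempty_fintype B
    refine ⟨∑ i, ∑ j, M i j, fun i j => ?_⟩
    exact (Finset.single_le_sum (f := fun j => M i j) (fun _ _ => Nat.zero_le _)
      (Finset.mem_univ j)).trans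
      (Finset.single_le_sum (f := fun i => ∑ j, M i j) (fun _ _ => Nat.zero_le _)
        (Finset.mem_univ i))
  refine ⟨N + 2, fun r r' hc => ?_⟩
  have hne : r' ≠ r := by
    rintro rfl
    obtain ⟨x, hx1, hx2⟩ := hc true false
    have h1 : x ∈ (cw cs).H r' ↔ true = true := hx1
    have h2 : x ∈ (cw cs).H r' ↔ false = true := hx2
    have h4 := h1.2 rfl
    exact absurd (h2.1 h4) (by decide)
  have hcar : ∀ (s : Wall cs) (x : W), x ∈ Car cs s → ∃ i, s.1 * x = x * cs.simple i ∧
      s = wall cs x i := by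
    rintro s x ⟨i, hi⟩
    refine ⟨i, hi, ?_⟩
    apply Subtype.ext
    rw [wall_val, ← hi]
    group
  obtain ⟨p, hp, hpD⟩ := h9 cs N hN r r' (h7 cs r r' hc)
  obtain ⟨z, hz, hzd, hzs⟩ := h11 cs r' p
  obtain ⟨i, hi, hiw⟩ := hcar r' z hz
  obtain ⟨j, hj, hjw⟩ := hcar r p hp
  have s1 : (cw cs).Sep r' z (z * cs.simple i) := (h3 cs r' z i).2 hiw
  have s2 : (cw cs).Sep r p (p * cs.simple j) := (h3 cs r p j).2 hjw
  have s3 : ¬ (cw cs).Sep r' p (p * cs.simple j) := by
    intro h
    exact hne (((h3 cs r' p j).1 h).trans hjw.symm)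
  have d1 : dd cs p (z * cs.simple i) ≤ N + 1 := by
    have := dd_tri cs p z (z * cs.simple i)
    rw [dd_simple] at this
    omega
  have d2 : dd cs (p * cs.simple j) (z * cs.simple i) ≤ N + 2 := by
    have := dd_tri cs (p * cs.simple j) p (z * cs.simple i)
    rw [dd_comm cs (p * cs.simple j) p, dd_simple] at this
    omega
  by_cases hs : (cw cs).Sep r p (z * cs.simple i)
  · refine ⟨p, z * cs.simple i, by omega, hs, ?_⟩
    unfold WS.Sep at *
    tauto
  · refine ⟨p * cs.simple j, z * cs.simple i, d2, ?_, ?_⟩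
    · unfold WS.Sep at *
      clear hzs s1 s3
      tauto
    · unfold WS.Sep at *
      clear s2 hs
      tauto

end Pool.Agent.helper97.DC
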