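import Pool.Agent.helper53.DC.SpecA

set_option autoImplicit false

namespace Pool.Agent.helper97.DC

open Pool.Agent.helper53.DC

theorem A4b_p (P1 Q1 P Q : Prop) (hb : P1 ↔ Q1) (hx : (Q ↔ Q1) ↔ (P ↔ P1)) : Q ↔ P := by
  by_cases h1 : P1 <;> by_cases h2 : Q1 <;> by_cases h3 : P <;> by_cases h4 : Q <;>
    simp_all

theorem A4b_n (P1 Q1 P Q : Prop) (hb : ¬ (P1 ↔ Q1)) (hx : (Q ↔ Q1) ↔ (P ↔ P1)) : Q ↔ ¬ P := by
  by_cases h1 : P1 <;> by_cases h2 : Q1 <;> by_cases h3 : P <;> by_cases h4 : Q <;>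
    simp_all

theorem A4b (h4 : A4_stmt) : A4b_stmt := by
  classical
  intro B W _ M cs g r
  have key : ∀ x : W, ((g * x ∈ (cw cs).H (g • r) ↔ g * 1 ∈ (cw cs).H (g • r)) ↔
      (x ∈ (cw cs).H r ↔ (1 : W) ∈ (cw cs).H r)) := by
    intro x
    have h := h4 cs g r x 1
    unfold WS.Sep at h
    exact not_iff_not.1 h
  by_cases hb : ((1 : W) ∈ (cw cs).H r ↔ g * 1 ∈ (cw cs).H (g • r))
  · refine ⟨false, fun x b => ?_⟩
    have hx := A4b_p _ _ _ _ hb (key x)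
    have e1 : (g * x ∈ (cw cs).hs (g • r) b) ↔ (g * x ∈ (cw cs).H (g • r) ↔ b = true) := Iff.rfl
    have e2 : (x ∈ (cw cs).hs r (xor b false)) ↔ (x ∈ (cw cs).H r ↔ xor b false = true) := Iff.rfl
    rw [e1, e2, hx, Bool.xor_false]
  · refine ⟨true, fun x b => ?_⟩
    have hx := A4b_n _ _ _ _ hb (key x)
    have e1 : (g * x ∈ (cw cs).hs (g • r) b) ↔ (g * x ∈ (cw cs).H (g • r) ↔ b = true) := Iff.rfl
    have e2 : (x ∈ (cw cs).hs r (xor b true)) ↔ (x ∈ (cw cs).H r ↔ xor b true = true) := Iff.rfl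
    rw [e1, e2, hx, Bool.xor_true]
    by_cases hp : x ∈ (cw cs).H r <;> cases b <;> simp [hp]

end Pool.Agent.helper97.DC
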