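import Pool.Agent.helper53.DC.SpecK

set_option autoImplicit false

namespace Pool.Agent.helper97.DC

open Pool.Agent.helper53.DC

theorem K8 (h2 : K2_stmt) (h3 : K3_stmt) (h4 : K4_stmt) (h5 : K5_stmt) (h6 : K6_stmt)
    (a6 : A6_stmt) (w1 : W1_stmt) (w3 : W3_stmt) : K8_stmt := by
  classical
  intro B W _ M cs H m g0 w w' hdeep hww hG0 hm F hF hFT
  have good : (cw cs).Good := a6 cs
  obtain ⟨-, csym, cirr, dsym, tri, -, -, -, -⟩ := w1 (cw cs) good
  obtain ⟨-, btw2, -, -, -, -, -, -, -, -, -⟩ := w3 (cw cs) good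
  have hG0' : (cw cs).G0 g0 := hG0
  obtain ⟨hac, -⟩ := h6 cs H m g0 w w' hdeep hww hG0 (by omega)
  have hsep : ∀ a b : Wall cs, (cw cs).SepCh (g0 + 1) a b → (cw cs).Dis a b := by
    rintro a b ⟨v, hv, -⟩
    exact (btw2 _ _ _ (hv 0 (Nat.succ_pos g0))).1
  rcases F.eq_empty_or_nonempty with hFe | hFn
  · refine ⟨w, SimpleGraph.Reachable.refl _, ?_⟩
    rw [hFe]
    intro v hv
    exact absurd hv (Finset.notMem_empty v)
  have near : ∀ u v : Wall cs, (u = v ∨ (cw cs).Cross u v) → ¬ (cw cs).SepCh (g0 + 1) u v := by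
    intro u v h hs
    have hd := hsep u v hs
    rcases h with h | h
    · exact hd.1 h
    · exact hd.2 h
  obtain ⟨x, hx⟩ := h4 (TG cs H w w') hac F
    (fun v => {u | u ∈ T0 cs H w w' ∧ ¬ (cw cs).SepCh (g0 + 1) u v}) hFn
    (by
      intro v _ a ha b hb p hp c hc
      have hcT : c ∈ T0 cs H w w' := by
        have : (TG cs H w w').Reachable a c := ⟨p.takeUntil c hc⟩
        exact SimpleGraph.Reachable.trans ha.1 this
      refine ⟨hcT, ?_⟩
      obtain ⟨j, hj, hjl⟩ := SimpleGraph.Walk.mem_support_iff_exists_getVert.1 hc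
      have hNB := h5 cs H m w w' hdeep hww a b p hp
      rcases Nat.eq_zero_or_pos j with h0 | h0
      · rw [← hj, h0, SimpleGraph.Walk.getVert_zero]
        exact ha.2
      · rcases Nat.lt_or_ge j p.length with h1 | h1
        · rw [← hj]
          refine h2 (cw cs) good g0 hG0' m p.length p.getVert hm hNB v j h0 h1 ?_ ?_
          · rw [SimpleGraph.Walk.getVert_zero]
            exact ha.2
          · rw [SimpleGraph.Walk.getVert_length]
            exact hb.2
        · rw [← hj, SimpleGraph.Walk.getVert_of_length_le p h1]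
          exact hb.2)
    (by
      intro v hv v' hv'
      by_cases hvv : v = v'
      · subst hvv
        obtain ⟨u, hu, huv⟩ := hFT v hv
        exact ⟨u, ⟨hu, near u v huv⟩, ⟨hu, near u v huv⟩⟩
      · have hcr := hF v hv v' hv' hvv
        obtain ⟨a0, ha0, hav0⟩ := hFT v hv
        obtain ⟨b0, hb0, hbv0⟩ := hFT v' hv'
        have hex : ∃ n : ℕ, ∃ (a b : Wall cs) (p : (TG cs H w w').Walk a b), p.IsPath ∧
            p.length = n ∧ a ∈ T0 cs H w w' ∧ (a = v ∨ (cw cs).Cross a v) ∧
            (b = v' ∨ (cw cs).Cross b v') := by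
          obtain ⟨p, hp⟩ := (SimpleGraph.Reachable.trans (SimpleGraph.Reachable.symm ha0)
            hb0).exists_isPath
          exact ⟨p.length, a0, b0, p, hp, rfl, ha0, hav0, hbv0⟩
        obtain ⟨a, b, p, hp, hpl, haT, hav, hbv⟩ := Nat.find_spec hex
        have hmin := fun (k : ℕ) (hk : k < Nat.find hex) => Nat.find_min hex hk
        have hNB := h5 cs H m w w' hdeep hww a b p hp
        have hT : ∀ i, p.getVert i ∈ T0 cs H w w' := fun i =>
          SimpleGraph.Reachable.trans haT ⟨p.take i⟩
        obtain ⟨i, hi, hi1, hi2⟩ := h3 (cw cs) good g0 hG0' m p.length p.getVert hm hNB v v' hcr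
          (by rw [SimpleGraph.Walk.getVert_zero]; exact hav)
          (by rw [SimpleGraph.Walk.getVert_length]; exact hbv)
          (by
            intro i hi0 hil
            rcases tri (p.getVert i) v with h | h | h
            · exfalso
              exact hmin (p.drop i).length (by rw [SimpleGraph.Walk.drop_length]; omega)
                ⟨_, _, p.drop i, hp.drop i, rfl, hT i, Or.inl h, hbv⟩
            · exfalso
              exact hmin (p.drop i).length (by rw [SimpleGraph.Walk.drop_length]; omega)
                ⟨_, _, p.drop i, hp.drop i, rfl, hT i, Or.inr h, hbv⟩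
            · exact h)
          (by
            intro i hil
            rcases tri (p.getVert i) v' with h | h | h
            · exfalso
              exact hmin (p.take i).length (by rw [SimpleGraph.Walk.take_length]; omega)
                ⟨_, _, p.take i, hp.take i, rfl, haT, hav, Or.inl h⟩
            · exfalso
              exact hmin (p.take i).length (by rw [SimpleGraph.Walk.take_length]; omega)
                ⟨_, _, p.take i, hp.take i, rfl, haT, hav, Or.inr h⟩
            · exact h)
        exact ⟨p.getVert i, ⟨hT i, hi1⟩, ⟨hT i, hi2⟩⟩)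
    (by
      intro v _ a ha b hb
      exact SimpleGraph.Reachable.trans (SimpleGraph.Reachable.symm ha.1) hb.1)
  obtain ⟨v0, hv0⟩ := hFn
  exact ⟨x, (hx v0 hv0).1, fun v hv => (hx v hv).2⟩

end Pool.Agent.helper97.DC
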