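import Pool.Agent.helper53.DC.SpecR

set_option autoImplicit false

namespace Pool.Agent.helper97.DC

open Pool.Agent.helper53.DC

theorem R8_map {A A' B : Type} [CommRing A] [CommRing A'] [Fintype B] [DecidableEq B]
    (f : A →+* A') (c : B → B → A) (i : B) :
    f.mapMatrix (sgA c i) = sgA (fun a b => f (c a b)) i := by
  ext k j
  simp only [sgA, RingHom.mapMatrix_apply, Matrix.map_apply, Matrix.of_apply, map_add]
  congr 1
  · split_ifs <;> simp
  · split_ifs <;> simp

theorem R8 (h1 : R1_stmt) (h5 : R5_stmt) (h6 : R6_stmt) (h7 : R7_stmt) : R8_stmt := by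
  classical
  intro B W _ _ M cs g hg
  cases nonempty_fintype B
  obtain ⟨A, hA, hc⟩ := h6 M
  let cA : B → B → A := fun i j => ⟨cc M i j, hc i j⟩
  have hmap : ∀ i, A.subtype.mapMatrix (sgA cA i) = sgA (cc M) i := fun i =>
    R8_map A.subtype cA i
  have hinj : Function.Injective (A.subtype.mapMatrix (m := B)) := by
    intro X Y hXY
    ext i j
    have := congrFun (congrFun hXY i) j
    exact this
  have hlift : M.IsLiftable (fun i => sgA cA i) := by
    intro i j
    apply hinj
    rw [map_pow, map_mul, hmap, hmap, map_one]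
    exact h1 M i j
  let φA : W →* Matrix B B A := cs.lift ⟨fun i => sgA cA i, hlift⟩
  have hφA : ∀ i, φA (cs.simple i) = sgA cA i := fun i => cs.lift_apply_simple hlift i
  let φ : W →* Matrix B B ℝ := (A.subtype.mapMatrix (m := B)).toMonoidHom.comp φA
  have hφ : ∀ i, φ (cs.simple i) = sgA (cc M) i := by
    intro i
    show A.subtype.mapMatrix (φA (cs.simple i)) = _
    rw [hφA, hmap]
  have hne : φA g ≠ 1 := by
    intro h0
    apply hg
    apply h5 cs φ hφ g
    show A.subtype.mapMatrix (φA g) = 1
    rw [h0, map_one]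
  obtain ⟨k, l, hkl⟩ : ∃ k l, φA g k l - (1 : Matrix B B A) k l ≠ 0 := by
    by_contra hcon
    push Not at hcon
    apply hne
    ext1 k l
    exact sub_eq_zero.1 (hcon k l)
  obtain ⟨R, instR, finR, f, hf⟩ := h7 A hA _ hkl
  let ψ : W →* Matrix B B R := (f.mapMatrix (m := B)).toMonoidHom.comp φA
  have hψ : ψ g ≠ 1 := by
    intro h0
    apply hf
    have h2 : f (φA g k l) = (1 : Matrix B B R) k l := by
      have := congrFun (congrFun h0 k) l
      exact this
    rw [map_sub, h2]
    rw [Matrix.one_apply, Matrix.one_apply]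
    split_ifs <;> simp
  have : Finite (Matrix B B R) := inferInstanceAs (Finite (B → B → R))
  have : Finite (ψ.toHomUnits).range := inferInstance
  refine ⟨(ψ.toHomUnits).ker, MonoidHom.normal_ker _, Subgroup.finiteIndex_ker _, ?_⟩
  intro hk
  apply hψ
  have := congrArg Units.val (MonoidHom.mem_ker.1 hk)
  exact this

end Pool.Agent.helper97.DC
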