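import Pool.Agent.helper53.DC.SpecV

set_option autoImplicit false

namespace Pool.Agent.helper97.DC

open Pool.Agent.helper53.DC

section

variable {B W : Type} [Group W] {M : CoxeterMatrix B} (cs : CoxeterSystem M W)

theorem V6b_vis (h4 : A4_stmt) (R : ℕ) (g : W) (r r' : Wall cs) (h : Vis cs R r r') :
    Vis cs R (g • r) (g • r') := by
  obtain ⟨x, y, h1, h2, h3⟩ := h
  refine ⟨g * x, g * y, ?_, (h4 cs g r x y).2 h2, (h4 cs g r' x y).2 h3⟩
  rw [dd_left]
  exact h1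

/-- the products along the path from `a` to `b` -/
def V6b_G (T : SimpleGraph (Wall cs)) (u v : Wall cs) : Set W :=
  ⋃ p : T.Path u v, ⋃ a ∈ {a | a ∈ p.1.support}, ⋃ b ∈ {b | b ∈ p.1.support},
    {x | a ≠ b ∧ x = b.1 * a.1}

theorem V6b_fin (T : SimpleGraph (Wall cs)) (hT : T.IsAcyclic) (u v : Wall cs) :
    (V6b_G cs T u v).Finite := by
  have : Subsingleton (T.Path u v) := ⟨fun p q => hT.path_unique p q⟩
  refine Set.finite_iUnion fun p => ?_
  refine Set.Finite.biUnion (List.finite_toSet p.1.support) fun a _ => ?_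
  refine Set.Finite.biUnion (List.finite_toSet p.1.support) fun b _ => ?_
  exact (Set.finite_singleton (b.1 * a.1)).subset fun x hx => hx.2

/-- translation by an element of `H` -/
def V6b_hom {H : Subgroup W} {w w' : Wall cs} (g : W) (hg : g ∈ H) :
    TG cs H w w' →g TG cs H w w' where
  toFun u := g • u
  map_rel' h := TG_adj_smul cs hg h

end

theorem V6b (h6a : V6a_stmt) (h9 : R9_stmt) (h4 : A4_stmt) : V6b_stmt := by
  classical
  intro B W _ _ M cs H w w' hHn hHf hac R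
  obtain ⟨F1, hF1, hF1'⟩ := h6a cs H hHf R w
  obtain ⟨F2, hF2, hF2'⟩ := h6a cs H hHf R w'
  have hfin : ((⋃ u ∈ F1, V6b_G cs (TG cs H w w') w u) ∪
      ⋃ u ∈ F2, V6b_G cs (TG cs H w w') w' u).Finite :=
    (Set.Finite.biUnion hF1 fun u _ => V6b_fin cs _ hac _ _).union
      (Set.Finite.biUnion hF2 fun u _ => V6b_fin cs _ hac _ _)
  have hG1 : ∀ u v : Wall cs, ∀ x ∈ V6b_G cs (TG cs H w w') u v, x ≠ 1 := by
    intro u v x hx
    unfold V6b_G at hx
    simp only [Set.mem_iUnion, Set.mem_setOf_eq] at hx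
    obtain ⟨p, a, -, b, -, hab, rfl⟩ := hx
    intro h1
    apply hab
    apply Subtype.ext
    have h2 : b.1 = a.1⁻¹ := eq_inv_of_mul_eq_one_left h1
    rw [h2, a.2.inv]
  obtain ⟨N, hN1, hN2, hN3⟩ := h9 cs hfin.toFinset (by
    intro g hg
    rw [Set.Finite.mem_toFinset] at hg
    rcases hg with hg | hg
    · simp only [Set.mem_iUnion] at hg
      obtain ⟨u, -, hu⟩ := hg
      exact hG1 _ _ g hu
    · simp only [Set.mem_iUnion] at hg
      obtain ⟨u, -, hu⟩ := hg
      exact hG1 _ _ g hu)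
  refine ⟨N ⊓ H, inferInstance, inferInstance, inf_le_right, ?_⟩
  have key : ∀ (w0 : Wall cs) (F : Set (Wall cs)),
      (∀ u', Vis cs R w0 u' → ∃ h ∈ H, h • w0 = w0 ∧ ∃ u'' ∈ F, u' = h • u'') →
      (∀ u ∈ F, ∀ x ∈ V6b_G cs (TG cs H w w') w0 u, x ∉ N) →
      ∀ (r r' : Wall cs) (h : W), h ∈ H → h • w0 = r → Vis cs R r r' →
        ∀ p : (TG cs H w w').Walk r r', p.IsPath →
      ∀ a ∈ p.support, ∀ b ∈ p.support, a ≠ b → b.1 * a.1 ∉ N ⊓ H := by
    intro w0 F hF hx r r' h hh hr hvis p hp a ha b hb hab hmem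
    have hv2 : Vis cs R w0 (h⁻¹ • r') := by
      have := V6b_vis cs h4 R h⁻¹ r r' hvis
      rwa [← hr, inv_smul_smul] at this
    obtain ⟨s, hs, hsw, u, hu, hsu⟩ := hF _ hv2
    have hg : (h * s)⁻¹ ∈ H := H.inv_mem (H.mul_mem hh hs)
    have e1 : (h * s)⁻¹ • r = w0 := by
      rw [inv_smul_eq_iff, mul_smul, hsw, hr]
    have e2 : (h * s)⁻¹ • r' = u := by
      rw [inv_smul_eq_iff, mul_smul, ← hsu, smul_inv_smul]
    subst e1
    subst e2
    have hinj : Function.Injective (V6b_hom cs (H := H) (w := w) (w' := w') (h * s)⁻¹ hg) := by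
      intro x y hxy
      exact smul_left_cancel (h * s)⁻¹ hxy
    have hq : (p.map (V6b_hom cs (H := H) (w := w) (w' := w') (h * s)⁻¹ hg)).IsPath :=
      SimpleGraph.Walk.map_isPath_of_injective hinj hp
    have ha' : (h * s)⁻¹ • a ∈
        (p.map (V6b_hom cs (H := H) (w := w) (w' := w') (h * s)⁻¹ hg)).support := by
      rw [SimpleGraph.Walk.support_map]
      exact List.mem_map_of_mem ha
    have hb' : (h * s)⁻¹ • b ∈
        (p.map (V6b_hom cs (H := H) (w := w) (w' := w') (h * s)⁻¹ hg)).support := by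
      rw [SimpleGraph.Walk.support_map]
      exact List.mem_map_of_mem hb
    have hmemG : ((h * s)⁻¹ • b).1 * ((h * s)⁻¹ • a).1 ∈
        V6b_G cs (TG cs H w w') ((h * s)⁻¹ • r) ((h * s)⁻¹ • r') := by
      unfold V6b_G
      simp only [Set.mem_iUnion, Set.mem_setOf_eq]
      refine ⟨⟨p.map (V6b_hom cs (H := H) (w := w) (w' := w') (h * s)⁻¹ hg), hq⟩,
        (h * s)⁻¹ • a, ha', (h * s)⁻¹ • b, hb', ?_, rfl⟩
      intro h0
      exact hab (smul_left_cancel _ h0)
    apply hx _ hu _ hmemG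
    rw [smul_wall_val, smul_wall_val]
    have e3 : (h * s)⁻¹ * b.1 * (h * s)⁻¹⁻¹ * ((h * s)⁻¹ * a.1 * (h * s)⁻¹⁻¹) =
        (h * s)⁻¹ * (b.1 * a.1) * (h * s)⁻¹⁻¹ := by group
    rw [e3]
    exact hN1.conj_mem _ hmem.1 _
  rintro r r' ⟨h, hh, hr | hr⟩ hvis p hp a ha b hb hab
  · refine key w F1 hF1' ?_ r r' h hh hr hvis p hp a ha b hb hab
    intro u hu x hx
    apply hN3
    rw [Set.Finite.mem_toFinset]
    left
    simp only [Set.mem_iUnion]
    exact ⟨u, hu, hx⟩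
  · refine key w' F2 hF2' ?_ r r' h hh hr hvis p hp a ha b hb hab
    intro u hu x hx
    apply hN3
    rw [Set.Finite.mem_toFinset]
    right
    simp only [Set.mem_iUnion]
    exact ⟨u, hu, hx⟩

end Pool.Agent.helper97.DC
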