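import Pool.Agent.helper53.DC.SpecA

set_option autoImplicit false

namespace Pool.Agent.helper97.DC

open Pool.Agent.helper53.DC

theorem W5_hs {X Wl : Type} (S : WS X Wl) (w : Wl) (b : Bool) (x : X) :
    x ∈ S.hs w (!b) ↔ x ∉ S.hs w b := by
  show (x ∈ S.H w ↔ (!b) = true) ↔ ¬ (x ∈ S.H w ↔ b = true)
  by_cases h : x ∈ S.H w <;> cases b <;> simp [h]

theorem W5_sub {X Wl : Type} (S : WS X Wl) (v : ℕ → Wl) (b : ℕ → Bool) (k : ℕ)
    (h : ∀ i < k, S.hs (v (i + 1)) (b (i + 1)) ⊂ S.hs (v i) (b i)) :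
    ∀ i ≤ k, S.hs (v k) (b k) ⊆ S.hs (v i) (b i) := by
  induction k with
  | zero =>
    intro i hi
    have : i = 0 := by omega
    rw [this]
  | succ k ih =>
    intro i hi
    rcases Nat.lt_or_ge i (k + 1) with h1 | h1
    · exact (h k (by omega)).subset.trans (ih (fun j hj => h j (by omega)) i (by omega))
    · have : i = k + 1 := by omega
      rw [this]

theorem W5 : W5_stmt := by
  intro X Wl S _ C k
  refine ⟨?_, ?_, ?_, ?_⟩
  · intro x hx
    have hx' : ∃ (v : ℕ → Wl) (b : ℕ → Bool), (∀ i ≤ k, x ∈ S.hs (v i) (b i)) ∧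
      (∀ i ≤ k, Disjoint (S.hs (v i) (b i)) C) ∧
      ∀ i < k, S.hs (v (i + 1)) (b (i + 1)) ⊂ S.hs (v i) (b i) := not_not.1 hx
    obtain ⟨v, b, h1, h2, h3⟩ := hx'
    refine ⟨v k, !(b k), ?_, ?_⟩
    · intro y hy
      rw [W5_hs]
      intro hyk
      exact hy ⟨v, b, fun i hi => W5_sub S v b k h3 i hi hyk, h2, h3⟩
    · rw [W5_hs, not_not]
      exact h1 k le_rfl
  · intro x hx
    rintro ⟨v, b, h1, h2, h3⟩
    exact Set.disjoint_left.1 (h2 0 (Nat.zero_le k)) (h1 0 (Nat.zero_le k)) hx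
  · intro x hx
    rintro ⟨v, b, h1, h2, h3⟩
    exact hx ⟨v, b, fun i hi => h1 i (by omega), fun i hi => h2 i (by omega),
      fun i hi => h3 i (by omega)⟩
  · intro C' hC x hx
    rintro ⟨v, b, h1, h2, h3⟩
    exact hx ⟨v, b, h1, fun i hi => (h2 i hi).mono_right hC, h3⟩

end Pool.Agent.helper97.DC
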