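import Pool.Agent.helper58.DC.Spec3

/-!
# Project dq (MP_baa4d7_al), module OZ
-/

set_option autoImplicit false

namespace Pool.Agent.helper97.DC

open Pool.Agent.helper58.DC

theorem OZ_fermat (q : ℕ) (hq : q.Prime) (a : ℤ) : (q : ℤ) ∣ a ^ q - a := by
  have : Fact q.Prime := ⟨hq⟩
  rw [← ZMod.intCast_zmod_eq_zero_iff_dvd, Int.cast_sub, Int.cast_pow, ZMod.pow_card, sub_self]

theorem OZ_rec (q : ℕ) (hq : q.Prime) (v : ℤ) (k : ℕ) :
    (q : ℤ) * ON q v (k + 1) = ON q v k ^ q - ON q v k := by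
  rw [ON]
  exact Int.mul_ediv_cancel' (OZ_fermat q hq _)

theorem OZ_div (q : ℕ) (hq : q.Prime) (v : ℤ) (h : ∀ k, (q : ℤ) ∣ ON q v k) (n : ℕ) :
    ∀ k, (q : ℤ) ^ n ∣ ON q v k := by
  induction n with
  | zero => intro k; rw [pow_zero]; exact one_dvd _
  | succ n ih =>
    intro k
    have h1 := OZ_rec q hq v k
    have h2 : (q : ℤ) ^ (n + 1) ∣ ON q v k * (ON q v k ^ (q - 1) - 1) := by
      have h3 : ON q v k * (ON q v k ^ (q - 1) - 1) = (q : ℤ) * ON q v (k + 1) := by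
        rw [h1, mul_sub, mul_one, ← pow_succ']
        congr 2
        have := hq.one_lt
        omega
      rw [h3, pow_succ']
      exact mul_dvd_mul_left _ (ih (k + 1))
    obtain ⟨c, hc⟩ : (q : ℤ) ∣ ON q v k ^ (q - 1) :=
      (h k).trans (dvd_pow_self _ (by have := hq.one_lt; omega))
    have h4 : IsCoprime ((q : ℤ) ^ (n + 1)) (ON q v k ^ (q - 1) - 1) := by
      apply IsCoprime.pow_left
      refine ⟨c, -1, ?_⟩
      rw [hc]
      ring
    exact h4.dvd_of_dvd_mul_right h2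

theorem OZ : OZ_stmt := by
  intro q hq v
  refine ⟨OZ_rec q hq v, fun hv => ?_⟩
  by_contra hcon
  push Not at hcon
  apply hv
  have h1 : (q : ℤ) ^ v.natAbs ∣ v := OZ_div q hq v hcon v.natAbs 0
  apply Int.eq_zero_of_dvd_of_natAbs_lt_natAbs h1
  rw [Int.natAbs_pow, Int.natAbs_natCast]
  exact Nat.lt_pow_self hq.one_lt

end Pool.Agent.helper97.DC
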